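import Pool.Agent.Lib.ArchG.Count

/-!
MP_0bd746_co: the number of Wilf-equivalence classes of arch systems with `n` arches is at least
`2.11 ^ n` for all large `n`.
-/

namespace Pool.Agent.Results.MP_0bd746_co.Growth

open ArchG ArchG.Arch

/-- For all large `n` the arch systems with `n` arches form at least `2.11 ^ n` Wilf-equivalence
classes. -/
theorem result : ∃ n₀ : ℕ, ∀ n ≥ n₀, (211 / 100 : ℝ) ^ n ≤ (wilfClasses n : ℝ) :=
  growth_211

end Pool.Agent.Results.MP_0bd746_co.Growth
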