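import Pool.Agent.Lib.ArchG.Many

/-!
MP_0bd746_co: the converse, in the strong form with the counts up to size `2 n - 2`, for systems
with at most one branching vertex, and for all pairs that arise from such a pair by replacing
insides of arches.
-/

namespace Pool.Agent.Results.MP_0bd746_co.OneBranching

open ArchG ArchG.Arch

/-- Let `Y`, `Y'` be arch systems of the same size which both have at most one branching vertex,
or such that `Y` has excess at most one (and `Y'` is arbitrary). Let `B` arise from `A` by
replacing one or more occurrences of `Y` by `Y'` (for instance `A = Y` and `B = Y'`). If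
`Av(A)` and `Av(B)` have equally many elements of each size up to `2 |A| - 2` then `A ∼ B`. -/
theorem result (Y Y' : Arch) (hs : Y.size = Y'.size)
    (hb : (Y.branching ≤ 1 ∧ Y'.branching ≤ 1) ∨ Y.excess ≤ 1) (s : ℕ) (A B : Arch)
    (h : Relation.TransGen (Replace Y Y' s) A B)
    (hav : ∀ m ≤ 2 * A.size - 2, avoiders A m = avoiders B m) : Cohort A B :=
  converse_one hs hb h hav

end Pool.Agent.Results.MP_0bd746_co.OneBranching
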