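import Pool.Agent.Lib.ArchG.Many

/-!
MP_0bd746_co: replacing one or more insides of arches. The counts of the two big systems agree
exactly as long as those of the two replaced systems do, shifted by the number of arches outside.
-/

namespace Pool.Agent.Results.MP_0bd746_co.Replacement

open ArchG ArchG.Arch

/-- Let `B` arise from `A` by replacing one or more occurrences of `Y` (as the complete inside of
an arch) by `Y'`, with `s` arches outside each replaced occurrence. Then for all `d` the counts
of `Av(A)` and `Av(B)` agree in all sizes below `d + s` if and only if those of `Av(Y)` and
`Av(Y')` agree in all sizes below `d`. In particular `A` and `B` are Wilf-equivalent if and only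
if `Y` and `Y'` are. -/
theorem result (Y Y' : Arch) (s : ℕ) (A B : Arch)
    (h : Relation.TransGen (Replace Y Y' s) A B) :
    (∀ d, (∀ m < d + s, avoiders A m = avoiders B m) ↔ ∀ m < d, avoiders Y m = avoiders Y' m) ∧
      (WilfEquiv A B ↔ WilfEquiv Y Y') :=
  ⟨agree_many h, wilf_many h⟩

end Pool.Agent.Results.MP_0bd746_co.Replacement
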