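import Pool.Agent.Lib.ArchG.Many

/-!
MP_0bd746_co: systems built by words over a set of steps. Wilf-equivalence, even agreement of the
counts up to size `2 n - 2`, implies equality of the words if the joins of the two words are the
same up to one type of join.
-/

namespace Pool.Agent.Results.MP_0bd746_co.Words

open ArchG ArchG.Arch

/-- Let `S` be a good set of steps, let `w`, `w'` be words over `S` which contain each join
except possibly one join `t₀` equally often, and let `A`, `B` be arch systems of the same size
with `A ∼ chain w` and `B ∼ chain w'`. If `Av(A)` and `Av(B)` have equally many elements of each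
size up to `2 |A| - 2` then `w = w'` and `A ∼ B`. For every choice of one arch system `Y n` of
each size `n` the set of `wrap` and all `join [Y a₁, …, Y aᵣ]` with `r ≥ 2` and `a₁ ≤ … ≤ aᵣ`
is good. -/
theorem result :
    (∀ (S : Set Step), Good S → ∀ (w w' : List Step), (∀ t ∈ w, t ∈ S) → (∀ t ∈ w', t ∈ S) →
      ∀ t₀ : Step, (∀ t, t ≠ Step.wrap → t ≠ t₀ → w.count t = w'.count t) →
      ∀ A B : Arch, Cohort A (chain w) → Cohort B (chain w') → A.size = B.size →
      (∀ m ≤ 2 * A.size - 2, avoiders A m = avoiders B m) → w = w' ∧ Cohort A B) ∧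
    ∀ Y : ℕ → Arch, (∀ n, (Y n).size = n) → Good {t | t = Step.wrap ∨ ∃ σ : List ℕ,
      σ.Pairwise (· ≤ ·) ∧ 2 ≤ σ.length ∧ t = Step.join (σ.map Y)} :=
  ⟨fun _ hS _ _ hw hw' t₀ hc _ _ hA hB hs hav => converse_words hS hw hw' t₀ hc hA hB hs hav,
    fun _ hY => good_sortedSteps hY⟩

end Pool.Agent.Results.MP_0bd746_co.Words
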